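import Pool.Agent.Helper63_CH.Triple

/-!
Caccetta–Häggkvist (triangle case): the main estimate for independence number two.
-/

set_option autoImplicit false

open Finset

namespace Pool.Agent.Helper63_CH

section

variable {V : Type} {E : V → V → Prop}

theorem ico_point (hE : NoC3 E) {x y : V} (hxy : x ≠ y ∧ ¬ E x y ∧ ¬ E y x) (z : V) :
    e E y z - e E z x - nn E x z * e E y z + nn E y z * e E z x ≤ e E x z * e E y z := by
  obtain ⟨h1, h2, h3⟩ := hxy
  obtain ⟨s1, s2, s3⟩ := self_vals hE x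
  obtain ⟨t1, t2, t3⟩ := self_vals hE y
  have q1 := e_zero E h2
  have q2 := e_zero E h3
  rcases rel_cases hE x z with h | h | h | h
  · subst h
    rw [s1, s2, q2]
    norm_num
  all_goals
    rcases rel_cases hE y z with h' | h' | h' | h'
    · subst h'
      rw [t1, t2, q2]
      norm_num
    all_goals
      obtain ⟨-, -, -, a1, a2, a3, a4, a5, a6⟩ := h
      obtain ⟨-, -, -, b1, b2, b3, b4, b5, b6⟩ := h'
      rw [a1, a2, a3, b1, b3]
      norm_num

theorem num_stop {h r U i : ℝ} (hh : 0 < h) (hr0 : 0 ≤ r) (hr : r < h) (hU : 0 ≤ U) (hi : 0 ≤ i)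
    (hi2 : r - h / 3 + U ≤ i) : - (max 0 (h / 3 - U) ^ 2 / 2) ≤ h * i - r ^ 2 / 2 := by
  rcases le_total (h / 3 - U) 0 with hm | hm
  · rw [max_eq_left hm]
    have h1 : h * r ≤ h * i := mul_le_mul_of_nonneg_left (by linarith) hh.le
    nlinarith
  · rw [max_eq_right hm]
    rcases le_total r (h / 3 - U) with h1 | h1
    · have h2 : 0 ≤ h * i := mul_nonneg hh.le hi
      nlinarith
    · have h2 : h * (r - (h / 3 - U)) ≤ h * i := mul_le_mul_of_nonneg_left (by linarith) hh.le
      have h3 : 0 ≤ (r - (h / 3 - U)) * (h - (r + (h / 3 - U)) / 2) := by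
        apply mul_nonneg
        · linarith
        · linarith
      nlinarith

end

section

variable {V : Type} [Fintype V] {E : V → V → Prop} {w : V → ℝ}

open Classical in
/-- The set of nonneighbours. -/
noncomputable def Cs (E : V → V → Prop) (x : V) : Finset V :=
  univ.filter (fun y => x ≠ y ∧ ¬ E x y ∧ ¬ E y x)

theorem mem_Cs {x y : V} : y ∈ Cs E x ↔ x ≠ y ∧ ¬ E x y ∧ ¬ E y x := by
  simp [Cs]

theorem mem_Cs_symm {x y : V} (h : y ∈ Cs E x) : x ∈ Cs E y := by
  rw [mem_Cs] at h ⊢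
  exact ⟨h.1.symm, h.2.2, h.2.1⟩

theorem Cs_tour (hI : Ind2 E) (x : V) : Tour E (Cs E x) := by
  intro y hy z hz hyz
  rw [mem_Cs] at hy hz
  by_contra hc
  rw [not_or] at hc
  exact hI x y z hy.1 hyz hz.1 hy.2.1 hy.2.2 hc.1 hc.2 hz.2.1 hz.2.2

theorem sum_Cs (x : V) (f : V → ℝ) : ∑ y ∈ Cs E x, f y = ∑ y, nn E x y * f y := by
  classical
  rw [Cs, sum_filter]
  apply sum_congr rfl
  intro y _
  by_cases h : x ≠ y ∧ ¬ E x y ∧ ¬ E y x
  · rw [if_pos h, nn_one E h, one_mul]
  · rw [if_neg h, nn_zero E h, zero_mul]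

theorem ico_nonneg (hw : ∀ x, 0 < w x) (x y : V) : 0 ≤ ico E w x y :=
  sum_nonneg (fun z _ => mul_nonneg (hw z).le (mul_nonneg (e_nonneg E _ _) (e_nonneg E _ _)))

theorem lo_nonneg (hw : ∀ x, 0 < w x) (C : Finset V) (x : V) : 0 ≤ lo E w C x :=
  sum_nonneg (fun z _ => mul_nonneg (e_nonneg E _ _) (hw z).le)

theorem up_nonneg (hw : ∀ x, 0 < w x) (C : Finset V) (x : V) : 0 ≤ up E w C x :=
  sum_nonneg (fun z _ => mul_nonneg (e_nonneg E _ _) (hw z).le)

theorem up_mono (hw : ∀ x, 0 < w x) {C D : Finset V} (h : C ⊆ D) (x : V) :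
    up E w C x ≤ up E w D x :=
  sum_le_sum_of_subset_of_nonneg h (fun z _ _ => mul_nonneg (e_nonneg E _ _) (hw z).le)

/-- The lower bound for common out-neighbours. -/
theorem ico_ge (hE : NoC3 E) (hw : ∀ x, 0 < w x) {x y : V} (hy : y ∈ Cs E x) :
    ao E w y - bi E w x - lo E w (Cs E x) y + up E w (Cs E y) x ≤ ico E w x y := by
  have h1 : lo E w (Cs E x) y = ∑ z, nn E x z * (e E y z * w z) := by
    rw [lo, sum_Cs]
  have h2 : up E w (Cs E y) x = ∑ z, nn E y z * (e E z x * w z) := by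
    rw [up, sum_Cs]
  rw [h1, h2, ao, bi, ico, ← sum_sub_distrib, ← sum_sub_distrib, ← sum_add_distrib]
  apply sum_le_sum
  intro z _
  have h3 := mul_le_mul_of_nonneg_right (ico_point hE (mem_Cs.1 hy) z) (hw z).le
  linarith

/-- The main estimate: there is no weight with `w(N⁺(x)) = (1 - w(x))/3 + v`, `v > 0`. -/
theorem assembly (hE : NoC3 E) (hI : Ind2 E) (hw : ∀ x, 0 < w x) (hs : ∑ x, w x = 1) {v : ℝ}
    (hv : 0 < v) (hreg : ∀ x, ao E w x = (1 - w x) / 3 + v) (hcap : ∀ x, 2 * w x + 6 * v < 1) :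
    False := by
  classical
  -- the excess of the indegree
  obtain ⟨β, hβ⟩ : ∃ β : V → ℝ, ∀ x, β x = bi E w x - ao E w x := ⟨_, fun _ => rfl⟩
  have hbi : ∀ x, bi E w x = (1 - w x) / 3 + v + β x := fun x => by
    rw [hβ, hreg]; ring
  have hcn : ∀ x, cn E w x = (1 - w x) / 3 - 2 * v - β x := fun x => by
    have := abc_sum (w := w) hE x
    rw [hs, hbi, hreg] at this
    linarith
  have hab : ∑ x, w x * bi E w x = ∑ x, w x * ao E w x := by
    simp only [bi, ao, mul_sum]
    rw [sum_comm]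
    apply sum_congr rfl
    intro x _
    apply sum_congr rfl
    intro y _
    ring
  have hEβ : ∑ x, w x * β x = 0 := by
    have : ∑ x, w x * β x = ∑ x, w x * bi E w x - ∑ x, w x * ao E w x := by
      rw [← sum_sub_distrib]
      apply sum_congr rfl
      intro x _
      rw [hβ]
      ring
    rw [this, hab, sub_self]
  -- the identity
  have hid : 3 * ∑ x, w x * ∑ y, w y * (nn E x y * ico E w x y)
      = - 9 * v ^ 2 - 3 * v * (∑ x, w x ^ 2) - ∑ x, w x ^ 2 * β x := by
    rw [triple hE hI]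
    have h1 : ∑ x, w x * (bi E w x ^ 2 - 2 * (ao E w x * bi E w x) - cn E w x ^ 2
          + 2 * (ao E w x * cn E w x) + w x * (cn E w x - ao E w x))
        = ∑ x, (-9 * v ^ 2 * w x - 6 * v * (w x * β x) - 3 * v * w x ^ 2 - w x ^ 2 * β x) := by
      apply sum_congr rfl
      intro x _
      rw [hcn, hbi, hreg]
      ring
    rw [h1, sum_sub_distrib, sum_sub_distrib, sum_sub_distrib, ← mul_sum, ← mul_sum, ← mul_sum, hEβ,
      hs]
    ring
  -- the numbers δ
  obtain ⟨δ, hδ⟩ : ∃ δ : V → ℝ, ∀ x, δ x = w x / 3 - β x := ⟨_, fun _ => rfl⟩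
  have hT : ∀ x, ∑ y, w y * (nn E x y * ico E w x y) = ∑ y ∈ Cs E x, w y * ico E w x y := by
    intro x
    rw [sum_Cs]
    apply sum_congr rfl
    intro y _
    ring
  have hT0 : ∀ x, 0 ≤ ∑ y ∈ Cs E x, w y * ico E w x y := fun x =>
    sum_nonneg (fun y _ => mul_nonneg (hw y).le (ico_nonneg hw x y))
  have hico : ∀ x, ∀ y ∈ Cs E x,
      δ x - w y / 3 - lo E w (Cs E x) y + up E w (Cs E y) x ≤ ico E w x y := by
    intro x y hy
    have := ico_ge (w := w) hE hw hy
    rw [hreg, hbi] at this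
    rw [hδ]
    linarith
  have hstop : ∀ x, ∃ y, 0 ≤ δ x → y ∈ Cs E x ∧
      δ x ^ 2 / 2 - max 0 (w y / 3 - up E w (Cs E y) x) ^ 2 / 2
        ≤ ∑ y ∈ Cs E x, w y * ico E w x y := by
    intro x
    by_cases h0 : 0 ≤ δ x
    · have hlt : δ x < ∑ y ∈ Cs E x, w y := by
        have h1 : ∑ y ∈ Cs E x, w y = cn E w x := by
          rw [sum_Cs, cn]
        rw [h1, hcn, hδ]
        have := hcap x
        linarith
      obtain ⟨y, hy, hy1, hy2, hy3⟩ := tour_stop hE hw (ico E w x) (δ x) h0 (Cs E x) (Cs_tour hI x)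
        hlt (fun y _ => ico_nonneg hw x y) (fun y hy => by
          have h2 := hico x y hy
          have h3 := up_nonneg (E := E) hw (Cs E y) x
          linarith)
      refine ⟨y, fun _ => ⟨hy, ?_⟩⟩
      have h4 := num_stop (h := w y) (r := δ x - lo E w (Cs E x) y) (U := up E w (Cs E y) x)
        (i := ico E w x y) (hw y) (by linarith) (by linarith) (up_nonneg hw _ _)
        (ico_nonneg hw x y) (by
          have h2 := hico x y hy
          linarith)
      linarith
    · exact ⟨x, fun h => absurd h h0⟩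
  choose ys hys using hstop
  -- charging
  have hcharge : ∑ x ∈ univ.filter (fun x => 0 ≤ δ x),
      w x * max 0 (w (ys x) / 3 - up E w (Cs E (ys x)) x) ^ 2 ≤ (∑ x, w x ^ 3) / 9 := by
    rw [← sum_fiberwise (univ.filter (fun x => 0 ≤ δ x)) ys]
    have h1 : ∀ y : V, ∑ x ∈ (univ.filter (fun x => 0 ≤ δ x)).filter (fun x => ys x = y),
        w x * max 0 (w (ys x) / 3 - up E w (Cs E (ys x)) x) ^ 2
        ≤ (∑ x ∈ (univ.filter (fun x => 0 ≤ δ x)).filter (fun x => ys x = y), w x ^ 3) / 27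
          + 2 * (w y / 3) ^ 3 := by
      intro y
      set X := (univ.filter (fun x => 0 ≤ δ x)).filter (fun x => ys x = y) with hX
      have hXC : X ⊆ Cs E y := by
        intro x hx
        rw [hX, mem_filter, mem_filter] at hx
        have := (hys x hx.1.2).1
        rw [hx.2] at this
        exact mem_Cs_symm this
      have h2 := tour_charge hE hw X ((Cs_tour hI y).mono hXC) (w y / 3)
      rw [max_eq_right (by have := hw y; linarith : 0 ≤ w y / 3)] at h2
      refine le_trans ?_ h2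
      apply sum_le_sum
      intro x hx
      have hx2 : ys x = y := (mem_filter.1 hx).2
      rw [hx2]
      apply mul_le_mul_of_nonneg_left _ (hw x).le
      apply pow_le_pow_left₀ (le_max_left _ _)
      apply max_le_max le_rfl
      have := up_mono (E := E) hw hXC x
      linarith
    have h3 := sum_le_sum (fun y (_ : y ∈ (univ : Finset V)) => h1 y)
    refine le_trans h3 ?_
    rw [sum_add_distrib, ← sum_div,
      sum_fiberwise (univ.filter (fun x => 0 ≤ δ x)) ys (fun x => w x ^ 3)]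
    have h4 : ∑ x ∈ univ.filter (fun x => 0 ≤ δ x), w x ^ 3 ≤ ∑ x, w x ^ 3 :=
      sum_le_sum_of_subset_of_nonneg (filter_subset _ _) (fun x _ _ => pow_nonneg (hw x).le 3)
    have h5 : ∑ y, 2 * (w y / 3) ^ 3 = 2 / 27 * ∑ x, w x ^ 3 := by
      rw [mul_sum]
      apply sum_congr rfl
      intro y _
      ring
    rw [h5]
    linarith
  -- lower bound for `I`
  have hI2 : ∑ x ∈ univ.filter (fun x => 0 ≤ δ x), w x * (δ x ^ 2 / 2) - (∑ x, w x ^ 3) / 18
      ≤ ∑ x, w x * ∑ y, w y * (nn E x y * ico E w x y) := by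
    have h1 : ∑ x ∈ univ.filter (fun x => 0 ≤ δ x), w x * ∑ y, w y * (nn E x y * ico E w x y)
        ≤ ∑ x, w x * ∑ y, w y * (nn E x y * ico E w x y) := by
      apply sum_le_sum_of_subset_of_nonneg (filter_subset _ _)
      intro x _ _
      rw [hT]
      exact mul_nonneg (hw x).le (hT0 x)
    have h2 : ∑ x ∈ univ.filter (fun x => 0 ≤ δ x), w x * (δ x ^ 2 / 2)
        - (∑ x ∈ univ.filter (fun x => 0 ≤ δ x),
          w x * max 0 (w (ys x) / 3 - up E w (Cs E (ys x)) x) ^ 2) / 2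
        ≤ ∑ x ∈ univ.filter (fun x => 0 ≤ δ x), w x * ∑ y, w y * (nn E x y * ico E w x y) := by
      rw [sum_div, ← sum_sub_distrib]
      apply sum_le_sum
      intro x hx
      have h3 := (hys x (mem_filter.1 hx).2).2
      rw [hT]
      have h4 := mul_le_mul_of_nonneg_left h3 (hw x).le
      linarith
    linarith
  -- conclusion
  have hfin : 0 ≤ ∑ x ∈ univ.filter (fun x => 0 ≤ δ x), w x * (3 / 2 * δ x ^ 2)
      + ∑ x, w x ^ 2 * β x - (∑ x, w x ^ 3) / 6 := by
    rw [sum_filter, sum_div, ← sum_add_distrib, ← sum_sub_distrib]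
    apply sum_nonneg
    intro x _
    have hwx := hw x
    by_cases h0 : 0 ≤ δ x
    · rw [if_pos h0, hδ]
      have : w x * (3 / 2 * (w x / 3 - β x) ^ 2) + w x ^ 2 * β x - w x ^ 3 / 6
          = w x * (3 / 2 * β x ^ 2) := by ring
      rw [this]
      positivity
    · rw [if_neg h0]
      push Not at h0
      rw [hδ] at h0
      have h1 : w x / 3 < β x := by linarith
      have h2 : w x ^ 2 * (w x / 3) ≤ w x ^ 2 * β x :=
        mul_le_mul_of_nonneg_left h1.le (by positivity)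
      have h3 : 0 < w x ^ 3 := by positivity
      nlinarith
  have hsq : 0 ≤ ∑ x, w x ^ 2 := sum_nonneg (fun x _ => by positivity)
  have h6 : ∑ x ∈ univ.filter (fun x => 0 ≤ δ x), w x * (3 / 2 * δ x ^ 2)
      = 3 * ∑ x ∈ univ.filter (fun x => 0 ≤ δ x), w x * (δ x ^ 2 / 2) := by
    rw [mul_sum]
    apply sum_congr rfl
    intro x _
    ring
  rw [h6] at hfin
  have h7 : 0 < v ^ 2 := by positivity
  have h8 : 0 ≤ v * ∑ x, w x ^ 2 := mul_nonneg hv.le hsq
  nlinarith

end

end Pool.Agent.Helper63_CH
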