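import Pool.Agent.Helper63_CH.Assembly

/-!
Caccetta–Häggkvist (triangle case): sharp weighted form for independence number two.
-/

set_option autoImplicit false

open Finset

namespace Pool.Agent.Helper63_CH

section minimax

variable {V : Type} [Fintype V]

/-- The bilinear form of a matrix. -/
def bil (M : V → V → ℝ) (m w : V → ℝ) : ℝ := ∑ x, m x * ∑ y, M x y * w y

theorem bil_continuous (M : V → V → ℝ) : Continuous (fun p : (V → ℝ) × (V → ℝ) => bil M p.1 p.2) := by
  unfold bil
  fun_prop

theorem bil_comm (M : V → V → ℝ) (m w : V → ℝ) :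
    bil M m w = ∑ y, (∑ x, m x * M x y) * w y := by
  unfold bil
  simp only [mul_sum, sum_mul]
  rw [sum_comm]
  apply sum_congr rfl
  intro y _
  apply sum_congr rfl
  intro x _
  ring

theorem bil_lin_left (M : V → V → ℝ) (w : V → ℝ) (a b : ℝ) (m m' : V → ℝ) :
    bil M (a • m + b • m') w = a * bil M m w + b * bil M m' w := by
  unfold bil
  rw [mul_sum, mul_sum, ← sum_add_distrib]
  apply sum_congr rfl
  intro x _
  simp only [Pi.add_apply, Pi.smul_apply, smul_eq_mul]
  ring

theorem bil_lin_right (M : V → V → ℝ) (m : V → ℝ) (a b : ℝ) (w w' : V → ℝ) :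
    bil M m (a • w + b • w') = a * bil M m w + b * bil M m w' := by
  rw [bil_comm, bil_comm, bil_comm, mul_sum, mul_sum, ← sum_add_distrib]
  apply sum_congr rfl
  intro x _
  simp only [Pi.add_apply, Pi.smul_apply, smul_eq_mul]
  ring

/-- The minimax theorem for matrix games. -/
theorem game [Nonempty V] (M : V → V → ℝ) : ∃ (m w : V → ℝ) (v : ℝ), (∀ x, 0 ≤ m x) ∧ ∑ x, m x = 1 ∧
    (∀ x, 0 ≤ w x) ∧ ∑ x, w x = 1 ∧ (∀ x, v ≤ ∑ y, M x y * w y) ∧ (∀ y, ∑ x, m x * M x y ≤ v) := by
  classical
  have hne : (stdSimplex ℝ V).Nonempty := ⟨_, single_mem_stdSimplex ℝ (Classical.arbitrary V)⟩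
  have hc := convex_stdSimplex ℝ V
  have hk : IsCompact (stdSimplex ℝ V) := isCompact_stdSimplex ℝ V
  have hcont := bil_continuous M
  obtain ⟨m, hm, w, hw, h⟩ := Sion.exists_isSaddlePointOn (X := stdSimplex ℝ V)
    (Y := stdSimplex ℝ V) (f := bil M) hne hc hk
    (fun y _ => (Continuous.lowerSemicontinuous (hcont.comp (Continuous.prodMk_left y))).lowerSemicontinuousOn _)
    (fun y _ => (show ConvexOn ℝ (stdSimplex ℝ V) (fun x => bil M x y) from
      ⟨hc, fun x _ x' _ a b _ _ _ => (bil_lin_left M y a b x x').le⟩).quasiconvexOn)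
    hc hne hk
    (fun x _ => (Continuous.upperSemicontinuous (hcont.comp (Continuous.prodMk_right x))).upperSemicontinuousOn _)
    (fun x _ => (show ConcaveOn ℝ (stdSimplex ℝ V) (fun y => bil M x y) from
      ⟨hc, fun y _ y' _ a b _ _ _ => (bil_lin_right M x a b y y').ge⟩).quasiconcaveOn)
  refine ⟨m, w, bil M m w, hm.1, hm.2, hw.1, hw.2, ?_, ?_⟩
  · intro x
    have h1 := h (Pi.single x 1) (single_mem_stdSimplex ℝ x) w hw
    have h2 : bil M (Pi.single x 1) w = ∑ y, M x y * w y := by
      unfold bil
      rw [Finset.sum_eq_single x]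
      · rw [Pi.single_eq_same, one_mul]
      · intro b _ hb
        rw [Pi.single_eq_of_ne hb, zero_mul]
      · intro h0
        exact absurd (mem_univ x) h0
    rw [← h2]
    exact h1
  · intro y
    have h1 := h m hm (Pi.single y 1) (single_mem_stdSimplex ℝ y)
    have h2 : bil M m (Pi.single y 1) = ∑ x, m x * M x y := by
      rw [bil_comm, Finset.sum_eq_single y]
      · rw [Pi.single_eq_same, mul_one]
      · intro b _ hb
        rw [Pi.single_eq_of_ne hb, mul_zero]
      · intro h0
        exact absurd (mem_univ y) h0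
    rw [← h2]
    exact h1

end minimax

/-- The sharp statement for the digraph `E`. -/
def Sharp {V : Type} [Fintype V] (E : V → V → Prop) : Prop :=
  ∀ w : V → ℝ, (∀ x, 0 ≤ w x) → 0 < ∑ x, w x → ∃ x, 0 < w x ∧ 3 * ao E w x ≤ ∑ y, w y - w x

/-- Restriction to a set of vertices. -/
theorem sharp_restrict {V : Type} {E : V → V → Prop} (S : Finset V)
    (h : Sharp (fun x y : {x // x ∈ S} => E x y)) {w : V → ℝ} (hw : ∀ x, 0 ≤ w x)
    (hpos : 0 < ∑ x ∈ S, w x) :
    ∃ x ∈ S, 0 < w x ∧ 3 * ∑ y ∈ S, e E x y * w y ≤ ∑ y ∈ S, w y - w x := by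
  obtain ⟨x, hx, hx2⟩ := h (fun x => w x) (fun x => hw x) (by
    rw [Finset.sum_coe_sort S w]
    exact hpos)
  refine ⟨x, x.2, hx, ?_⟩
  have h1 : ao (fun x y : {x // x ∈ S} => E x y) (fun x => w x) x = ∑ y ∈ S, e E x y * w y := by
    rw [← Finset.sum_coe_sort S (fun y => e E x y * w y)]
    rfl
  rw [h1, Finset.sum_coe_sort S w] at hx2
  exact hx2

theorem NoC3.restrict {V : Type} {E : V → V → Prop} (h : NoC3 E) (S : Finset V) :
    NoC3 (fun x y : {x // x ∈ S} => E x y) where
  c1 := fun x => h.c1 x
  c2 := fun x y => h.c2 x y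
  c3 := fun x y z => h.c3 x y z

theorem Ind2.restrict {V : Type} {E : V → V → Prop} (h : Ind2 E) (S : Finset V) :
    Ind2 (fun x y : {x // x ∈ S} => E x y) := by
  intro x y z h1 h2 h3
  exact h x y z (fun h => h1 (Subtype.ext h)) (fun h => h2 (Subtype.ext h))
    (fun h => h3 (Subtype.ext h))

theorem Ind2.swap {V : Type} {E : V → V → Prop} (h : Ind2 E) : Ind2 (fun x y => E y x) := by
  intro x y z h1 h2 h3 a1 a2 a3 a4 a5 a6
  exact h x y z h1 h2 h3 a2 a1 a4 a3 a6 a5

section

variable {V : Type} [Fintype V] {E : V → V → Prop}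

/-- Full support. -/
theorem full_support (hI : ∀ S : Finset V, S ≠ univ → Sharp (fun x y : {x // x ∈ S} => E x y))
    {w : V → ℝ} (hw : ∀ x, 0 ≤ w x) (hpos : 0 < ∑ x, w x)
    (h : ∀ x, 0 < w x → ∑ y, w y - w x < 3 * ao E w x) : ∀ x, 0 < w x := by
  classical
  by_contra hc
  push Not at hc
  obtain ⟨x0, hx0⟩ := hc
  have hS : univ.filter (fun x => 0 < w x) ≠ univ := by
    intro h1
    have : x0 ∈ univ.filter (fun x => 0 < w x) := by rw [h1]; exact mem_univ _
    exact absurd (mem_filter.1 this).2 (not_lt.2 hx0)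
  have hz : ∀ f : V → ℝ, ∑ x ∈ univ.filter (fun x => 0 < w x), f x * w x = ∑ x, f x * w x := by
    intro f
    apply sum_subset (filter_subset _ _)
    intro x _ hx
    rw [mem_filter] at hx
    have h2 : w x = 0 := by
      apply le_antisymm _ (hw x)
      by_contra h3
      exact hx ⟨mem_univ _, not_le.1 h3⟩
    rw [h2, mul_zero]
  have hz1 : ∑ x ∈ univ.filter (fun x => 0 < w x), w x = ∑ x, w x := by
    have := hz (fun _ => 1)
    simpa using this
  obtain ⟨x, hx, hx1, hx2⟩ := sharp_restrict _ (hI _ hS) hw (by rw [hz1]; exact hpos)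
  rw [hz1, hz (fun y => e E x y)] at hx2
  have h3 := h x hx1
  rw [ao] at h3
  linarith

/-- The matrix of the game. -/
noncomputable def Mx (E : V → V → Prop) (x y : V) : ℝ := e E x y - (1 - dd x y) / 3

theorem Mx_mul (w : V → ℝ) (x : V) :
    ∑ y, Mx E x y * w y = ao E w x - (∑ y, w y - w x) / 3 := by
  have h1 : ∑ y, Mx E x y * w y = ∑ y, (e E x y * w y - w y / 3 + dd x y * (w y / 3)) := by
    apply sum_congr rfl
    intro y _
    rw [Mx]
    ring
  rw [h1, sum_add_distrib, sum_sub_distrib, sum_dd x (fun y => w y / 3), ← sum_div, ao]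
  ring

theorem mul_Mx (m : V → ℝ) (y : V) :
    ∑ x, m x * Mx E x y = ao (fun x y => E y x) m y - (∑ x, m x - m y) / 3 := by
  have h1 : ∑ x, m x * Mx E x y = ∑ x, (e E x y * m x - m x / 3 + dd y x * (m x / 3)) := by
    apply sum_congr rfl
    intro x _
    rw [Mx]
    have : dd x y = dd y x := by
      by_cases h : x = y
      · rw [dd_one h, dd_one h.symm]
      · rw [dd_zero h, dd_zero (Ne.symm h)]
    rw [this]
    ring
  rw [h1, sum_add_distrib, sum_sub_distrib, sum_dd y (fun y => m y / 3), ← sum_div]
  have h2 : ao (fun x y => E y x) m y = ∑ x, e E x y * m x := rfl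
  rw [h2]
  ring

/-- The step of the induction. -/
theorem core_step (hE : NoC3 E) (hI : Ind2 E)
    (h1 : ∀ S : Finset V, S ≠ univ → Sharp (fun x y : {x // x ∈ S} => E x y))
    (h2 : ∀ S : Finset V, S ≠ univ → Sharp (fun x y : {x // x ∈ S} => E y x)) : Sharp E := by
  classical
  intro w0 hw0 hpos0
  by_contra hc
  push Not at hc
  have hfs0 := full_support h1 hw0 hpos0 hc
  have hne : Nonempty V := by
    by_contra hc2
    rw [not_nonempty_iff] at hc2
    rw [univ_eq_empty, sum_empty] at hpos0
    exact lt_irrefl _ hpos0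
  obtain ⟨m, w, v, hm, hm1, hw, hw1, hv1, hv2⟩ := game (Mx E)
  have hb := bil_comm (Mx E) m w
  -- the value is positive
  have hv : 0 < v := by
    have h3 := bil_comm (Mx E) m w0
    have h4 : ∑ y, (∑ x, m x * Mx E x y) * w0 y ≤ v * ∑ y, w0 y := by
      rw [mul_sum]
      apply sum_le_sum
      intro y _
      exact mul_le_mul_of_nonneg_right (hv2 y) (hw0 y)
    have h5 : 0 < bil (Mx E) m w0 := by
      unfold bil
      have h6 : ∀ x, 0 < ∑ y, Mx E x y * w0 y := by
        intro x
        rw [Mx_mul]
        have := hc x (hfs0 x)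
        linarith
      have h7 : ∃ x, 0 < m x := by
        by_contra h8
        push Not at h8
        have : ∑ x, m x ≤ 0 := sum_nonpos (fun x _ => h8 x)
        linarith
      obtain ⟨x, hx⟩ := h7
      apply sum_pos'
      · intro y _
        exact mul_nonneg (hm y) (h6 y).le
      · exact ⟨x, mem_univ x, mul_pos hx (h6 x)⟩
    rw [h3] at h5
    by_contra h8
    push Not at h8
    have : v * ∑ y, w0 y ≤ 0 := mul_nonpos_of_nonpos_of_nonneg h8 hpos0.le
    linarith
  -- full support of the optimal strategies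
  have hwp : ∀ x, 0 < w x := by
    apply full_support h1 hw (by rw [hw1]; norm_num)
    intro x _
    have := hv1 x
    rw [Mx_mul] at this
    linarith
  have heq1 : ∀ y, ∑ x, m x * Mx E x y = v := by
    have h3 : ∑ y, w y * (v - ∑ x, m x * Mx E x y) ≤ 0 := by
      have h4 : ∑ y, w y * (v - ∑ x, m x * Mx E x y) = v - bil (Mx E) m w := by
        rw [hb]
        have : ∀ y, w y * (v - ∑ x, m x * Mx E x y) = v * w y - (∑ x, m x * Mx E x y) * w y :=
          fun y => by ring
        simp only [this]
        rw [sum_sub_distrib, ← mul_sum, hw1, mul_one]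
      rw [h4]
      have h5 : v * ∑ x, m x ≤ bil (Mx E) m w := by
        unfold bil
        rw [mul_sum]
        apply sum_le_sum
        intro x _
        rw [mul_comm]
        exact mul_le_mul_of_nonneg_left (hv1 x) (hm x)
      rw [hm1, mul_one] at h5
      linarith
    have h6 : ∀ y ∈ (univ : Finset V), 0 ≤ w y * (v - ∑ x, m x * Mx E x y) := fun y _ =>
      mul_nonneg (hw y) (sub_nonneg.2 (hv2 y))
    have h7 := (sum_eq_zero_iff_of_nonneg h6).1 (le_antisymm h3 (sum_nonneg h6))
    intro y
    rcases mul_eq_zero.1 (h7 y (mem_univ y)) with h8 | h8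
    · exact absurd h8 (hwp y).ne'
    · linarith
  have hmeq : ∀ y, ao (fun x y => E y x) m y = (1 - m y) / 3 + v := by
    intro y
    have := heq1 y
    rw [mul_Mx, hm1] at this
    linarith
  have hmp : ∀ x, 0 < m x := by
    apply full_support (E := fun x y => E y x) h2 hm (by rw [hm1]; norm_num)
    intro x _
    rw [hmeq, hm1]
    linarith
  have heq2 : ∀ x, ∑ y, Mx E x y * w y = v := by
    have h3 : ∑ x, m x * ((∑ y, Mx E x y * w y) - v) = 0 := by
      have h4 : ∀ x, m x * ((∑ y, Mx E x y * w y) - v) = m x * (∑ y, Mx E x y * w y) - v * m x :=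
        fun x => by ring
      simp only [h4]
      rw [sum_sub_distrib, ← mul_sum, hm1, mul_one]
      have h5 : ∑ x, m x * ∑ y, Mx E x y * w y = bil (Mx E) m w := rfl
      rw [h5, hb]
      simp only [heq1]
      rw [← mul_sum, hw1, mul_one, sub_self]
    have h6 : ∀ x ∈ (univ : Finset V), 0 ≤ m x * ((∑ y, Mx E x y * w y) - v) := fun x _ =>
      mul_nonneg (hm x) (sub_nonneg.2 (hv1 x))
    have h7 := (sum_eq_zero_iff_of_nonneg h6).1 h3
    intro x
    rcases mul_eq_zero.1 (h7 x (mem_univ x)) with h8 | h8
    · exact absurd h8 (hmp x).ne'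
    · linarith
  have hreg : ∀ x, ao E w x = (1 - w x) / 3 + v := by
    intro x
    have := heq2 x
    rw [Mx_mul, hw1] at this
    linarith
  have hle1 : ∀ x, m x ≤ 1 := fun x => by
    rw [← hm1]
    exact single_le_sum (fun y _ => hm y) (mem_univ x)
  -- weights are small
  have hin : ∀ x, w x ≤ 1 / 3 + v := by
    intro x
    have h3 := hmeq x
    have h4 : 0 < ao (fun x y => E y x) m x := by
      rw [h3]
      have := hle1 x
      linarith
    have h5 : ∃ y, E y x := by
      by_contra h6
      push Not at h6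
      have : ao (fun x y => E y x) m x = 0 := by
        rw [ao]
        apply sum_eq_zero
        intro y _
        have h7 : e (fun x y => E y x) x y = 0 := e_zero _ (h6 y)
        rw [h7, zero_mul]
      linarith
    obtain ⟨y, hy⟩ := h5
    have h6 : w x ≤ ao E w y := by
      have h7 : e E y x * w x ≤ ∑ z, e E y z * w z :=
        single_le_sum (f := fun z => e E y z * w z)
          (fun z _ => mul_nonneg (e_nonneg E _ _) (hw z)) (mem_univ x)
      rw [e_one E hy, one_mul] at h7
      exact h7
    rw [hreg y] at h6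
    have := hwp y
    linarith
  -- the value is small
  have hvs : v < 1 / 24 := by
    have h3 : ∀ x, 2 / 9 + w x / 9 + 2 * v / 3 ≤ cn E w x := by
      intro x
      have hne1 : univ.filter (fun y => E x y) ≠ univ := by
        intro h4
        have : x ∈ univ.filter (fun y => E x y) := by rw [h4]; exact mem_univ _
        exact hE.c1 x (mem_filter.1 this).2
      have hsf : ∀ f : V → ℝ, ∑ y ∈ univ.filter (fun y => E x y), f y = ∑ y, e E x y * f y := by
        intro f
        rw [sum_filter]
        apply sum_congr rfl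
        intro y _
        by_cases h4 : E x y
        · rw [if_pos h4, e_one E h4, one_mul]
        · rw [if_neg h4, e_zero E h4, zero_mul]
      have ha : ∑ y ∈ univ.filter (fun y => E x y), w y = ao E w x := hsf w
      have hxle : w x ≤ 1 := by
        rw [← hw1]
        exact single_le_sum (fun y _ => hw y) (mem_univ x)
      obtain ⟨y, hy, hy1, hy2⟩ := sharp_restrict _ (h1 _ hne1) hw (by
        rw [ha, hreg]
        linarith)
      rw [ha, hsf] at hy2
      have hxy : E x y := (mem_filter.1 hy).2
      have h5 : ao E w y ≤ ∑ z, e E x z * (e E y z * w z) + cn E w x := by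
        rw [ao, cn, ← sum_add_distrib]
        apply sum_le_sum
        intro z _
        have h6 : e E y z ≤ e E x z * e E y z + nn E x z := by
          by_cases h7 : E y z
          · rw [e_one E h7]
            have h8 : ¬ E z x := hE.c3 x y z hxy h7
            have h9 : x ≠ z := fun h => hE.c2 x y hxy (h ▸ h7)
            by_cases h10 : E x z
            · rw [e_one E h10]
              have := nn_nonneg E x z
              linarith
            · rw [e_zero E h10, nn_one E ⟨h9, h10, h8⟩]
              norm_num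
          · rw [e_zero E h7, mul_zero, zero_add]
            exact nn_nonneg E x z
        have := mul_le_mul_of_nonneg_right h6 (hw z)
        linarith
      rw [hreg] at h5 hy2
      linarith
    have h4 : ∑ x, w x * (2 / 9 + w x / 9 + 2 * v / 3) ≤ ∑ x, w x * cn E w x :=
      sum_le_sum (fun x _ => mul_le_mul_of_nonneg_left (h3 x) (hw x))
    have h5 : ∑ x, w x * cn E w x = ∑ x, w x * (1 - w x - 2 * ao E w x) := by
      have h6 : ∑ x, w x * bi E w x = ∑ x, w x * ao E w x := by
        simp only [bi, ao, mul_sum]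
        rw [sum_comm]
        apply sum_congr rfl
        intro x _
        apply sum_congr rfl
        intro y _
        ring
      have h7 : ∑ x, w x * cn E w x = ∑ x, (w x * (1 - w x - ao E w x) - w x * bi E w x) := by
        apply sum_congr rfl
        intro x _
        have := abc_sum (w := w) hE x
        rw [hw1] at this
        have h8 : cn E w x = 1 - w x - ao E w x - bi E w x := by linarith
        rw [h8]
        ring
      rw [h7, sum_sub_distrib, h6, ← sum_sub_distrib]
      apply sum_congr rfl
      intro x _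
      ring
    rw [h5] at h4
    simp only [hreg] at h4
    have h9 : ∑ x, w x * (2 / 9 + w x / 9 + 2 * v / 3)
        = 2 / 9 + 2 * v / 3 + (∑ x, w x ^ 2) / 9 := by
      have : ∀ x, w x * (2 / 9 + w x / 9 + 2 * v / 3) = (2 / 9 + 2 * v / 3) * w x + w x ^ 2 / 9 :=
        fun x => by ring
      simp only [this]
      rw [sum_add_distrib, ← mul_sum, ← sum_div, hw1, mul_one]
    have h10 : ∑ x, w x * (1 - w x - 2 * ((1 - w x) / 3 + v))
        = 1 / 3 - 2 * v - (∑ x, w x ^ 2) / 3 := by
      have : ∀ x, w x * (1 - w x - 2 * ((1 - w x) / 3 + v))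
          = (1 / 3 - 2 * v) * w x - w x ^ 2 / 3 := fun x => by ring
      simp only [this]
      rw [sum_sub_distrib, ← mul_sum, ← sum_div, hw1, mul_one]
    rw [h9, h10] at h4
    have h11 : 0 < ∑ x, w x ^ 2 :=
      sum_pos (fun x _ => pow_pos (hwp x) 2) univ_nonempty
    linarith
  apply assembly hE hI hwp hw1 hv hreg
  intro x
  have := hin x
  linarith

end

/-- The sharp form for digraphs of independence number at most two. -/
theorem core : ∀ (n : ℕ) (V : Type) [Fintype V], Fintype.card V = n → ∀ E : V → V → Prop, NoC3 E →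
    Ind2 E → Sharp E := by
  intro n
  induction n using Nat.strong_induction_on with
  | _ n ih =>
    intro V _ hV E hE hI
    have hlt : ∀ S : Finset V, S ≠ univ → Fintype.card {x // x ∈ S} < n := by
      intro S hS
      rw [Fintype.card_coe, ← hV]
      exact Finset.card_lt_card (Finset.ssubset_univ_iff.2 hS)
    apply core_step hE hI
    · intro S hS
      exact ih _ (hlt S hS) _ rfl _ (hE.restrict S) (hI.restrict S)
    · intro S hS
      exact ih _ (hlt S hS) _ rfl _ (hE.swap.restrict S) (hI.swap.restrict S)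

end Pool.Agent.Helper63_CH
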