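import Pool.Agent.Helper63_CH.Core

/-!
Caccetta–Häggkvist (triangle case): modules and the final theorem.
-/

set_option autoImplicit false

open Finset

namespace Pool.Agent.Helper63_CH

section

variable {V : Type} (E : V → V → Prop)

/-- `M` is a module (homogeneous set) of the digraph induced on `S`. -/
def Md (S M : Finset V) : Prop :=
  M ⊆ S ∧ ∀ x ∈ M, ∀ y ∈ M, ∀ z ∈ S, z ∉ M → (E x z ↔ E y z) ∧ (E z x ↔ E z y)

/-- The sharp statement on a set of vertices. -/
def SharpOn (S : Finset V) : Prop := ∀ w : V → ℝ, (∀ x, 0 ≤ w x) → 0 < ∑ x ∈ S, w x →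
  ∃ x ∈ S, 0 < w x ∧ 3 * ∑ y ∈ S, e E x y * w y ≤ ∑ y ∈ S, w y - w x

/-- The condition on the set `S`: if it contains three pairwise nonadjacent vertices then it has a
nontrivial module. -/
def Good (S : Finset V) : Prop := (∃ x ∈ S, ∃ y ∈ S, ∃ z ∈ S, x ≠ y ∧ y ≠ z ∧ x ≠ z ∧ ¬ E x y ∧
    ¬ E y x ∧ ¬ E y z ∧ ¬ E z y ∧ ¬ E x z ∧ ¬ E z x) →
  ∃ M, Md E S M ∧ 1 < M.card ∧ M.card < S.card

variable {E}

/-- Substitution. -/
theorem sharp_subst (hE : NoC3 E) {S M : Finset V} (hM : Md E S M) {a : V} (ha : a ∈ M)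
    (h1 : SharpOn E M) (h2 : ∀ Q ⊆ S, Q.card < S.card → SharpOn E Q) (hc1 : 1 < M.card)
    (hc2 : M.card < S.card) : SharpOn E S := by
  classical
  intro w hw hpos
  have hMS := hM.1
  have hdis : ∀ f : V → ℝ, ∑ x ∈ S, f x = ∑ x ∈ S \ M, f x + ∑ x ∈ M, f x := fun f =>
    (sum_sdiff hMS).symm
  have haN : a ∉ S \ M := fun h => (mem_sdiff.1 h).2 ha
  -- the quotient
  set Q := insert a (S \ M) with hQ
  have hQS : Q ⊆ S := by
    intro x hx
    rcases mem_insert.1 hx with h | h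
    · rw [h]; exact hMS ha
    · exact (mem_sdiff.1 h).1
  have hQc : Q.card < S.card := by
    rw [hQ, card_insert_of_notMem haN, card_sdiff_of_subset hMS]
    omega
  obtain ⟨u, hu⟩ : ∃ u : V → ℝ, ∀ x, u x = if x = a then ∑ y ∈ M, w y else w x := ⟨_, fun _ => rfl⟩
  have hua : u a = ∑ y ∈ M, w y := by rw [hu, if_pos rfl]
  have hun : ∀ x ∈ S \ M, u x = w x := by
    intro x hx
    rw [hu, if_neg]
    intro h
    exact haN (h ▸ hx)
  have hM0 : 0 ≤ ∑ y ∈ M, w y := sum_nonneg (fun y _ => hw y)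
  have hu0 : ∀ x, 0 ≤ u x := by
    intro x
    rw [hu]
    split_ifs
    · exact hM0
    · exact hw x
  have hQsum : ∑ x ∈ Q, u x = ∑ x ∈ S, w x := by
    rw [hQ, sum_insert haN, hua, hdis w, add_comm]
    congr 1
    exact sum_congr rfl hun
  have hQout : ∀ x, ∑ y ∈ Q, e E x y * u y = e E x a * (∑ y ∈ M, w y) + ∑ y ∈ S \ M, e E x y * w y := by
    intro x
    rw [hQ, sum_insert haN, hua]
    congr 1
    apply sum_congr rfl
    intro y hy
    rw [hun y hy]
  obtain ⟨x, hx, hx1, hx2⟩ := h2 Q hQS hQc u hu0 (by rw [hQsum]; exact hpos)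
  rw [hQsum, hQout] at hx2
  rcases mem_insert.1 hx with h | h
  · -- the vertex of the module
    subst h
    rw [hua] at hx1 hx2
    obtain ⟨y, hy, hy1, hy2⟩ := h1 w hw hx1
    refine ⟨y, hMS hy, hy1, ?_⟩
    rw [e_zero E (hE.c1 x), zero_mul, zero_add] at hx2
    rw [hdis (fun z => e E y z * w z)]
    have h3 : ∑ z ∈ S \ M, e E y z * w z = ∑ z ∈ S \ M, e E x z * w z := by
      apply sum_congr rfl
      intro z hz
      rw [mem_sdiff] at hz
      have h4 := (hM.2 y hy x ha z hz.1 hz.2).1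
      congr 1
      by_cases h5 : E y z
      · rw [e_one E h5, e_one E (h4.1 h5)]
      · rw [e_zero E h5, e_zero E (fun h6 => h5 (h4.2 h6))]
    rw [h3]
    linarith
  · have hxw : u x = w x := hun x h
    rw [hxw] at hx1 hx2
    refine ⟨x, hQS hx, hx1, ?_⟩
    rw [mem_sdiff] at h
    rw [hdis (fun z => e E x z * w z)]
    have h3 : ∑ z ∈ M, e E x z * w z = e E x a * (∑ y ∈ M, w y) := by
      rw [mul_sum]
      apply sum_congr rfl
      intro z hz
      have h4 := (hM.2 z hz a ha x h.1 h.2).2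
      congr 1
      by_cases h5 : E x z
      · rw [e_one E h5, e_one E (h4.1 h5)]
      · rw [e_zero E h5, e_zero E (fun h6 => h5 (h4.2 h6))]
    rw [h3]
    linarith

/-- The theorem on finite sets of vertices. -/
theorem main_on (hE : NoC3 E) (hG : ∀ S : Finset V, Good E S) : ∀ (n : ℕ) (S : Finset V),
    S.card = n → SharpOn E S := by
  classical
  intro n
  induction n using Nat.strong_induction_on with
  | _ n ih =>
    intro S hS
    by_cases hI : Ind2 (fun x y : {x // x ∈ S} => E x y)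
    · intro w hw hpos
      exact sharp_restrict S (core _ _ rfl _ (hE.restrict S) hI) hw hpos
    · have h1 : ∃ x ∈ S, ∃ y ∈ S, ∃ z ∈ S, x ≠ y ∧ y ≠ z ∧ x ≠ z ∧ ¬ E x y ∧
          ¬ E y x ∧ ¬ E y z ∧ ¬ E z y ∧ ¬ E x z ∧ ¬ E z x := by
        by_contra hc
        apply hI
        intro x y z a1 a2 a3 b1 b2 b3 b4 b5 b6
        exact hc ⟨x, x.2, y, y.2, z, z.2, fun h => a1 (Subtype.ext h), fun h => a2 (Subtype.ext h),
          fun h => a3 (Subtype.ext h), b1, b2, b3, b4, b5, b6⟩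
      obtain ⟨M, hM, hc1, hc2⟩ := hG S h1
      obtain ⟨a, ha⟩ : M.Nonempty := card_pos.1 (by omega)
      apply sharp_subst hE hM ha (ih _ (hS ▸ hc2) M rfl) _ hc1 hc2
      intro Q _ hQc
      exact ih _ (hS ▸ hQc) Q rfl

end

end Pool.Agent.Helper63_CH
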