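import Pool.Agent.Helper63_CH.Mods
import Pool.Agent.Helper23_CH.Weights

/-!
Caccetta–Häggkvist (triangle case): the normal form of a minimal violator, and the theorem for
digraphs whose prime pieces have no mixed claw and acyclic nonneighbourhoods.
-/

set_option autoImplicit false

open Finset

namespace Pool.Agent.Helper63_CH

section

variable {V : Type} [Fintype V] {E : V → V → Prop}

/-- Full support. -/
theorem full_support' (hI : ∀ S : Finset V, S ≠ univ → SharpOn E S)
    {w : V → ℝ} (hw : ∀ x, 0 ≤ w x) (hpos : 0 < ∑ x, w x)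
    (h : ∀ x, 0 < w x → ∑ y, w y - w x < 3 * ao E w x) : ∀ x, 0 < w x := by
  classical
  by_contra hc
  push Not at hc
  obtain ⟨x0, hx0⟩ := hc
  have hS : univ.filter (fun x => 0 < w x) ≠ univ := by
    intro h1
    have : x0 ∈ univ.filter (fun x => 0 < w x) := by rw [h1]; exact mem_univ _
    exact absurd (mem_filter.1 this).2 (not_lt.2 hx0)
  have hz : ∀ f : V → ℝ, ∑ x ∈ univ.filter (fun x => 0 < w x), f x * w x = ∑ x, f x * w x := by
    intro f
    apply sum_subset (filter_subset _ _)
    intro x _ hx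
    rw [mem_filter] at hx
    have h2 : w x = 0 := by
      apply le_antisymm _ (hw x)
      by_contra h3
      exact hx ⟨mem_univ _, not_le.1 h3⟩
    rw [h2, mul_zero]
  have hz1 : ∑ x ∈ univ.filter (fun x => 0 < w x), w x = ∑ x, w x := by
    have := hz (fun _ => 1)
    simpa using this
  obtain ⟨x, hx, hx1, hx2⟩ := hI _ hS w hw (by rw [hz1]; exact hpos)
  rw [hz1, hz (fun y => e E x y)] at hx2
  have h3 := h x hx1
  rw [ao] at h3
  linarith

/-- The normal form of a minimal violator. -/
theorem normal_form (h1 : ∀ S : Finset V, S ≠ univ → SharpOn E S)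
    (h2 : ∀ S : Finset V, S ≠ univ → SharpOn (fun x y => E y x) S) (hns : ¬ Sharp E) :
    ∃ (w m : V → ℝ) (v : ℝ), 0 < v ∧ (∀ x, 0 < w x) ∧ ∑ x, w x = 1 ∧ (∀ x, 0 < m x) ∧
      ∑ x, m x = 1 ∧ (∀ x, ao E w x = (1 - w x) / 3 + v) ∧
      ∀ x, ao (fun x y => E y x) m x = (1 - m x) / 3 + v := by
  classical
  unfold Sharp at hns
  push Not at hns
  obtain ⟨w0, hw0, hpos0, hc⟩ := hns
  have hfs0 := full_support' h1 hw0 hpos0 hc
  have hne : Nonempty V := by
    by_contra hc2
    rw [not_nonempty_iff] at hc2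
    rw [univ_eq_empty, sum_empty] at hpos0
    exact lt_irrefl _ hpos0
  obtain ⟨m, w, v, hm, hm1, hw, hw1, hv1, hv2⟩ := game (Mx E)
  have hb := bil_comm (Mx E) m w
  -- the value is positive
  have hv : 0 < v := by
    have h3 := bil_comm (Mx E) m w0
    have h4 : ∑ y, (∑ x, m x * Mx E x y) * w0 y ≤ v * ∑ y, w0 y := by
      rw [mul_sum]
      apply sum_le_sum
      intro y _
      exact mul_le_mul_of_nonneg_right (hv2 y) (hw0 y)
    have h5 : 0 < bil (Mx E) m w0 := by
      unfold bil
      have h6 : ∀ x, 0 < ∑ y, Mx E x y * w0 y := by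
        intro x
        rw [Mx_mul]
        have := hc x (hfs0 x)
        linarith
      have h7 : ∃ x, 0 < m x := by
        by_contra h8
        push Not at h8
        have : ∑ x, m x ≤ 0 := sum_nonpos (fun x _ => h8 x)
        linarith
      obtain ⟨x, hx⟩ := h7
      apply sum_pos'
      · intro y _
        exact mul_nonneg (hm y) (h6 y).le
      · exact ⟨x, mem_univ x, mul_pos hx (h6 x)⟩
    rw [h3] at h5
    by_contra h8
    push Not at h8
    have : v * ∑ y, w0 y ≤ 0 := mul_nonpos_of_nonpos_of_nonneg h8 hpos0.le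
    linarith
  -- full support of the optimal strategies
  have hwp : ∀ x, 0 < w x := by
    apply full_support' h1 hw (by rw [hw1]; norm_num)
    intro x _
    have := hv1 x
    rw [Mx_mul] at this
    linarith
  have heq1 : ∀ y, ∑ x, m x * Mx E x y = v := by
    have h3 : ∑ y, w y * (v - ∑ x, m x * Mx E x y) ≤ 0 := by
      have h4 : ∑ y, w y * (v - ∑ x, m x * Mx E x y) = v - bil (Mx E) m w := by
        rw [hb]
        have : ∀ y, w y * (v - ∑ x, m x * Mx E x y) = v * w y - (∑ x, m x * Mx E x y) * w y :=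
          fun y => by ring
        simp only [this]
        rw [sum_sub_distrib, ← mul_sum, hw1, mul_one]
      rw [h4]
      have h5 : v * ∑ x, m x ≤ bil (Mx E) m w := by
        unfold bil
        rw [mul_sum]
        apply sum_le_sum
        intro x _
        rw [mul_comm]
        exact mul_le_mul_of_nonneg_left (hv1 x) (hm x)
      rw [hm1, mul_one] at h5
      linarith
    have h6 : ∀ y ∈ (univ : Finset V), 0 ≤ w y * (v - ∑ x, m x * Mx E x y) := fun y _ =>
      mul_nonneg (hw y) (sub_nonneg.2 (hv2 y))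
    have h7 := (sum_eq_zero_iff_of_nonneg h6).1 (le_antisymm h3 (sum_nonneg h6))
    intro y
    rcases mul_eq_zero.1 (h7 y (mem_univ y)) with h8 | h8
    · exact absurd h8 (hwp y).ne'
    · linarith
  have hmeq : ∀ y, ao (fun x y => E y x) m y = (1 - m y) / 3 + v := by
    intro y
    have := heq1 y
    rw [mul_Mx, hm1] at this
    linarith
  have hmp : ∀ x, 0 < m x := by
    apply full_support' (E := fun x y => E y x) h2 hm (by rw [hm1]; norm_num)
    intro x _
    rw [hmeq, hm1]
    linarith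
  have heq2 : ∀ x, ∑ y, Mx E x y * w y = v := by
    have h3 : ∑ x, m x * ((∑ y, Mx E x y * w y) - v) = 0 := by
      have h4 : ∀ x, m x * ((∑ y, Mx E x y * w y) - v) = m x * (∑ y, Mx E x y * w y) - v * m x :=
        fun x => by ring
      simp only [h4]
      rw [sum_sub_distrib, ← mul_sum, hm1, mul_one]
      have h5 : ∑ x, m x * ∑ y, Mx E x y * w y = bil (Mx E) m w := rfl
      rw [h5, hb]
      simp only [heq1]
      rw [← mul_sum, hw1, mul_one, sub_self]
    have h6 : ∀ x ∈ (univ : Finset V), 0 ≤ m x * ((∑ y, Mx E x y * w y) - v) := fun x _ =>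
      mul_nonneg (hm x) (sub_nonneg.2 (hv1 x))
    have h7 := (sum_eq_zero_iff_of_nonneg h6).1 h3
    intro x
    rcases mul_eq_zero.1 (h7 x (mem_univ x)) with h8 | h8
    · exact absurd h8 (hmp x).ne'
    · linarith
  refine ⟨w, m, v, hv, hwp, hw1, hmp, hm1, ?_, hmeq⟩
  intro x
  have := heq2 x
  rw [Mx_mul, hw1] at this
  linarith

end

section

variable {V : Type} {E : V → V → Prop}

/-- From sets of vertices to subtypes. -/
theorem sharpOn_sub {S : Finset V} {S' : Finset {x // x ∈ S}}
    (h : SharpOn E (S'.map (Function.Embedding.subtype _))) :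
    SharpOn (fun x y : {x // x ∈ S} => E x y) S' := by
  classical
  intro w hw hpos
  obtain ⟨u, hu⟩ : ∃ u : V → ℝ, ∀ x, u x = if h : x ∈ S then w ⟨x, h⟩ else 0 := ⟨_, fun _ => rfl⟩
  have hux : ∀ x : {x // x ∈ S}, u x = w x := fun x => by
    rw [hu, dif_pos x.2]
  have hu0 : ∀ x, 0 ≤ u x := by
    intro x
    rw [hu]
    split_ifs
    · exact hw _
    · exact le_rfl
  have hsum : ∀ f : V → ℝ, ∑ x ∈ S'.map (Function.Embedding.subtype _), f x = ∑ x ∈ S', f x := by
    intro f
    rw [sum_map]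
    rfl
  have hsu : ∑ x ∈ S', u x = ∑ x ∈ S', w x := sum_congr rfl (fun x _ => hux x)
  obtain ⟨x, hx, hx1, hx2⟩ := h u hu0 (by rw [hsum, hsu]; exact hpos)
  rw [mem_map] at hx
  obtain ⟨x', hx', rfl⟩ := hx
  have hxe : u ((Function.Embedding.subtype (fun x => x ∈ S)) x') = w x' := hux x'
  rw [hxe] at hx1 hx2
  rw [hsum, hsum, hsu] at hx2
  refine ⟨x', hx', hx1, ?_⟩
  have h3 : ∑ y ∈ S', e (fun x y : {x // x ∈ S} => E x y) x' y * w y
      = ∑ y ∈ S', e E ((Function.Embedding.subtype (fun x => x ∈ S)) x') y * u y := by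
    apply sum_congr rfl
    intro y _
    rw [hux]
    rfl
  rw [h3]
  exact hx2

theorem sharpOn_of_sharp {S : Finset V} (h : Sharp (fun x y : {x // x ∈ S} => E x y)) :
    SharpOn E S := fun _ hw hpos => sharp_restrict S h hw hpos

theorem Md.rev {S M : Finset V} (h : Md E S M) : Md (fun x y => E y x) S M :=
  ⟨h.1, fun x hx y hy z hz hzM => ⟨(h.2 x hx y hy z hz hzM).2, (h.2 x hx y hy z hz hzM).1⟩⟩

/-- A minimal violator is prime and in normal form, in both directions. -/
theorem nf_exists (hE : NoC3 E) (h : ∃ S : Finset V, ¬ SharpOn E S) :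
    ∃ S : Finset V, (∀ M, Md E S M → M.card ≤ 1 ∨ M = S) ∧
      ∃ (l m : {x // x ∈ S} → ℝ) (ε : ℝ),
        Helper23CH.NF (fun x y : {x // x ∈ S} => E x y) l ε ∧
        Helper23CH.NF (fun x y : {x // x ∈ S} => E y x) m ε := by
  classical
  -- a violator of minimal cardinality, in one of the two directions
  have hex : ∃ n : ℕ, ∃ S : Finset V, S.card = n ∧
      (¬ SharpOn E S ∨ ¬ SharpOn (fun x y => E y x) S) := by
    obtain ⟨S, hS⟩ := h
    exact ⟨_, S, rfl, Or.inl hS⟩
  obtain ⟨S, hSc, hS⟩ := Nat.find_spec hex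
  have hmin : ∀ T : Finset V, T.card < S.card → SharpOn E T ∧ SharpOn (fun x y => E y x) T := by
    intro T hT
    rw [hSc] at hT
    have := Nat.find_min hex hT
    by_contra hc
    apply this
    refine ⟨T, rfl, ?_⟩
    by_cases h1 : SharpOn E T
    · right
      intro h2
      exact hc ⟨h1, h2⟩
    · exact Or.inl h1
  have hprime : ∀ M, Md E S M → M.card ≤ 1 ∨ M = S := by
    intro M hM
    by_contra hc
    rw [not_or, not_le] at hc
    have hlt : M.card < S.card := Finset.card_lt_card (Finset.ssubset_iff_subset_ne.2 ⟨hM.1, hc.2⟩)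
    obtain ⟨a, ha⟩ : M.Nonempty := card_pos.1 (by omega)
    rcases hS with hS | hS
    · exact hS (sharp_subst hE hM ha (hmin M hlt).1 (fun Q _ hQ => (hmin Q hQ).1) hc.1 hlt)
    · exact hS (sharp_subst hE.swap hM.rev ha (hmin M hlt).2 (fun Q _ hQ => (hmin Q hQ).2) hc.1 hlt)
  refine ⟨S, hprime, ?_⟩
  have hsub : ∀ S' : Finset {x // x ∈ S}, S' ≠ univ →
      (S'.map (Function.Embedding.subtype (fun x => x ∈ S))).card < S.card := by
    intro S' hS'
    rw [card_map, ← Fintype.card_coe S]
    exact Finset.card_lt_card (Finset.ssubset_univ_iff.2 hS')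
  have g1 : ∀ S' : Finset {x // x ∈ S}, S' ≠ univ →
      SharpOn (fun x y : {x // x ∈ S} => E x y) S' := fun S' hS' =>
    sharpOn_sub (hmin _ (hsub S' hS')).1
  have g2 : ∀ S' : Finset {x // x ∈ S}, S' ≠ univ →
      SharpOn (fun x y : {x // x ∈ S} => E y x) S' := fun S' hS' =>
    sharpOn_sub (E := fun x y => E y x) (hmin _ (hsub S' hS')).2
  have how : ∀ (F : {x // x ∈ S} → {x // x ∈ S} → Prop) (l : {x // x ∈ S} → ℝ)
      (x : {x // x ∈ S}), Helper23CH.ow F l x = ao F l x := by
    intro F l x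
    unfold Helper23CH.ow ao
    apply sum_congr rfl
    intro y _
    by_cases hF : F x y
    · rw [if_pos hF, e_one F hF, one_mul]
    · rw [if_neg hF, e_zero F hF, zero_mul]
  rcases hS with hS | hS
  · obtain ⟨w, m, v, hv, a1, a2, a3, a4, a5, a6⟩ := normal_form
      (E := fun x y : {x // x ∈ S} => E x y) g1 g2 (fun h => hS (sharpOn_of_sharp h))
    exact ⟨w, m, v, ⟨a1, a2, hv, fun x => by rw [how]; exact a5 x⟩,
      ⟨a3, a4, hv, fun x => by rw [how]; exact a6 x⟩⟩
  · obtain ⟨w, m, v, hv, a1, a2, a3, a4, a5, a6⟩ := normal_form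
      (E := fun x y : {x // x ∈ S} => E y x) g2 g1
      (fun h => hS (sharpOn_of_sharp (E := fun x y => E y x) h))
    exact ⟨m, w, v, ⟨a3, a4, hv, fun x => by rw [how]; exact a6 x⟩,
      ⟨a1, a2, hv, fun x => by rw [how]; exact a5 x⟩⟩

end

end Pool.Agent.Helper63_CH
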