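import Mathlib

/-!
Caccetta–Häggkvist (triangle case): lemmas on weighted transitive tournaments.
-/

set_option autoImplicit false

open Finset

namespace Pool.Agent.Helper63_CH

/-- No directed cycle of length at most three. -/
structure NoC3 {V : Type} (E : V → V → Prop) : Prop where
  c1 : ∀ x, ¬ E x x
  c2 : ∀ x y, E x y → ¬ E y x
  c3 : ∀ x y z, E x y → E y z → ¬ E z x

theorem NoC3.swap {V : Type} {E : V → V → Prop} (h : NoC3 E) : NoC3 (fun x y => E y x) where
  c1 := h.c1
  c2 := fun x y h1 => h.c2 y x h1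
  c3 := fun x y z h1 h2 h3 => h.c3 z y x h2 h1 h3

section

variable {V : Type} (E : V → V → Prop)

open Classical in
/-- The indicator of an edge. -/
noncomputable def e (x y : V) : ℝ := if E x y then 1 else 0

open Classical in
/-- The indicator of a pair of distinct nonadjacent vertices. -/
noncomputable def nn (x y : V) : ℝ := if x ≠ y ∧ ¬ E x y ∧ ¬ E y x then 1 else 0

open Classical in
/-- The indicator of equality. -/
noncomputable def dd (x y : V) : ℝ := if x = y then 1 else 0

theorem e_one {x y : V} (h : E x y) : e E x y = 1 := if_pos h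

theorem e_zero {x y : V} (h : ¬ E x y) : e E x y = 0 := if_neg h

theorem e_nonneg (x y : V) : 0 ≤ e E x y := by
  rw [e]; split_ifs <;> norm_num

theorem nn_one {x y : V} (h : x ≠ y ∧ ¬ E x y ∧ ¬ E y x) : nn E x y = 1 := if_pos h

theorem nn_zero {x y : V} (h : ¬ (x ≠ y ∧ ¬ E x y ∧ ¬ E y x)) : nn E x y = 0 := if_neg h

theorem nn_nonneg (x y : V) : 0 ≤ nn E x y := by
  rw [nn]; split_ifs <;> norm_num

theorem dd_one {x y : V} (h : x = y) : dd x y = 1 := if_pos h

theorem dd_zero {x y : V} (h : x ≠ y) : dd x y = 0 := if_neg h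

/-- `C` induces a tournament. -/
def Tour (C : Finset V) : Prop := ∀ x ∈ C, ∀ y ∈ C, x ≠ y → E x y ∨ E y x

end

section tour

variable {V : Type} {E : V → V → Prop}

theorem Tour.mono {C D : Finset V} (h : Tour E C) (hD : D ⊆ C) : Tour E D :=
  fun x hx y hy hxy => h x (hD hx) y (hD hy) hxy

open Classical in
/-- The source of a transitive tournament. -/
theorem exists_source (hE : NoC3 E) : ∀ (C : Finset V), C.Nonempty → Tour E C →
    ∃ q ∈ C, ∀ z ∈ C, z ≠ q → E q z := by
  intro C hC
  induction C using Finset.induction with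
  | empty => exact absurd hC Finset.not_nonempty_empty
  | @insert a C ha ih =>
    intro hT
    rcases C.eq_empty_or_nonempty with h0 | h0
    · refine ⟨a, mem_insert_self _ _, ?_⟩
      intro z hz hza
      rw [h0] at hz
      simp only [insert_empty_eq, mem_singleton] at hz
      exact absurd hz hza
    · obtain ⟨q, hq, hq2⟩ := ih h0 (hT.mono (subset_insert _ _))
      have hqa : q ≠ a := fun h => ha (h ▸ hq)
      rcases hT q (mem_insert_of_mem hq) a (mem_insert_self _ _) hqa with h1 | h1
      · refine ⟨q, mem_insert_of_mem hq, ?_⟩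
        intro z hz hzq
        rcases mem_insert.1 hz with h2 | h2
        · rw [h2]; exact h1
        · exact hq2 z h2 hzq
      · refine ⟨a, mem_insert_self _ _, ?_⟩
        intro z hz hza
        rcases mem_insert.1 hz with h2 | h2
        · exact absurd h2 hza
        · by_cases hzq : z = q
          · rw [hzq]; exact h1
          · have h3 := hq2 z h2 hzq
            rcases hT a (mem_insert_self _ _) z hz (Ne.symm hza) with h4 | h4
            · exact h4
            · exact absurd h4 (hE.c3 a q z h1 h3)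

open Classical in
/-- Induction on transitive tournaments by removing the source. -/
theorem tour_induction (hE : NoC3 E) {P : Finset V → Prop} (h0 : P ∅)
    (h1 : ∀ (q : V) (C : Finset V), q ∉ C → (∀ z ∈ C, E q z) → Tour E C → P C → P (insert q C)) :
    ∀ C : Finset V, Tour E C → P C := by
  intro C
  induction hn : C.card generalizing C with
  | zero =>
    intro _
    rw [Finset.card_eq_zero.1 hn]
    exact h0
  | succ n ih =>
    intro hT
    have hC : C.Nonempty := by
      rw [← Finset.card_pos, hn]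
      exact Nat.succ_pos n
    obtain ⟨q, hq, hq2⟩ := exists_source hE C hC hT
    have hq3 : insert q (C.erase q) = C := insert_erase hq
    rw [← hq3]
    apply h1
    · exact Finset.notMem_erase q C
    · intro z hz
      exact hq2 z (mem_of_mem_erase hz) (ne_of_mem_erase hz)
    · exact hT.mono (erase_subset _ _)
    · apply ih
      · rw [card_erase_of_mem hq, hn]
        rfl
      · exact hT.mono (erase_subset _ _)

/-- The weight below `y` in `C`. -/
noncomputable def lo (E : V → V → Prop) (w : V → ℝ) (C : Finset V) (y : V) : ℝ :=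
  ∑ z ∈ C, e E y z * w z

/-- The weight above `y` in `C`. -/
noncomputable def up (E : V → V → Prop) (w : V → ℝ) (C : Finset V) (y : V) : ℝ :=
  ∑ z ∈ C, e E z y * w z

variable {w : V → ℝ}

open Classical in
theorem lo_insert_old (hE : NoC3 E) {q : V} {C : Finset V} (hq : q ∉ C) (h : ∀ z ∈ C, E q z) {y : V}
    (hy : y ∈ C) : lo E w (insert q C) y = lo E w C y := by
  rw [lo, sum_insert hq, e_zero E (hE.c2 q y (h y hy)), zero_mul, zero_add]
  rfl

open Classical in
theorem lo_insert_new (hE : NoC3 E) {q : V} {C : Finset V} (hq : q ∉ C) (h : ∀ z ∈ C, E q z) :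
    lo E w (insert q C) q = ∑ z ∈ C, w z := by
  rw [lo, sum_insert hq, e_zero E (hE.c1 q), zero_mul, zero_add]
  apply sum_congr rfl
  intro z hz
  rw [e_one E (h z hz), one_mul]

open Classical in
theorem up_insert_old {q : V} {C : Finset V} (hq : q ∉ C) (h : ∀ z ∈ C, E q z) {y : V}
    (hy : y ∈ C) : up E w (insert q C) y = w q + up E w C y := by
  rw [up, sum_insert hq, e_one E (h y hy), one_mul]
  rfl

open Classical in
theorem up_insert_new (hE : NoC3 E) {q : V} {C : Finset V} (hq : q ∉ C) (h : ∀ z ∈ C, E q z) :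
    up E w (insert q C) q = 0 := by
  rw [up, sum_insert hq, e_zero E (hE.c1 q), zero_mul, zero_add]
  apply sum_eq_zero
  intro z hz
  rw [e_zero E (hE.c2 q z (h z hz)), zero_mul]

/-- Counting pairs in a tournament. -/
theorem tour_sq (hE : NoC3 E) : ∀ C : Finset V, Tour E C →
    ∑ y ∈ C, w y * (w y + 2 * lo E w C y) = (∑ y ∈ C, w y) ^ 2 := by
  classical
  refine tour_induction hE (P := fun C => ∑ y ∈ C, w y * (w y + 2 * lo E w C y) = (∑ y ∈ C, w y) ^ 2)
    ?_ ?_
  · simp
  · intro q C hq h hT ih
    rw [sum_insert hq, sum_insert hq, lo_insert_new hE hq h]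
    have h2 : ∑ y ∈ C, w y * (w y + 2 * lo E w (insert q C) y)
        = ∑ y ∈ C, w y * (w y + 2 * lo E w C y) := by
      apply sum_congr rfl
      intro y hy
      rw [lo_insert_old hE hq h hy]
    rw [h2, ih]
    ring

/-- The stopping vertex. -/
theorem tour_stop (hE : NoC3 E) (hw : ∀ x, 0 < w x) (i : V → ℝ) (δ : ℝ) (hδ : 0 ≤ δ) :
    ∀ C : Finset V, Tour E C → δ < ∑ y ∈ C, w y → (∀ y ∈ C, 0 ≤ i y) →
      (∀ y ∈ C, δ - w y / 3 - lo E w C y ≤ i y) →
      ∃ y ∈ C, lo E w C y ≤ δ ∧ δ < lo E w C y + w y ∧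
        δ ^ 2 / 2 - (δ - lo E w C y) ^ 2 / 2 + w y * i y ≤ ∑ z ∈ C, w z * i z := by
  classical
  refine tour_induction hE (P := fun C => δ < ∑ y ∈ C, w y → (∀ y ∈ C, 0 ≤ i y) →
      (∀ y ∈ C, δ - w y / 3 - lo E w C y ≤ i y) →
      ∃ y ∈ C, lo E w C y ≤ δ ∧ δ < lo E w C y + w y ∧
        δ ^ 2 / 2 - (δ - lo E w C y) ^ 2 / 2 + w y * i y ≤ ∑ z ∈ C, w z * i z) ?_ ?_
  · intro h
    rw [sum_empty] at h
    exact absurd hδ (not_le.2 h)
  · intro q C hq h hT ih hδ2 hi0 hi
    have hlo : ∀ y ∈ C, lo E w (insert q C) y = lo E w C y := fun y hy =>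
      lo_insert_old hE hq h hy
    rcases lt_or_ge δ (∑ y ∈ C, w y) with h1 | h1
    · obtain ⟨y, hy, hy1, hy2, hy3⟩ := ih h1 (fun y hy => hi0 y (mem_insert_of_mem hy))
        (fun y hy => by
          have := hi y (mem_insert_of_mem hy)
          rw [hlo y hy] at this
          exact this)
      refine ⟨y, mem_insert_of_mem hy, ?_⟩
      rw [hlo y hy, sum_insert hq]
      refine ⟨hy1, hy2, ?_⟩
      have := mul_nonneg (hw q).le (hi0 q (mem_insert_self _ _))
      linarith
    · refine ⟨q, mem_insert_self _ _, ?_⟩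
      rw [lo_insert_new hE hq h]
      rw [sum_insert hq] at hδ2
      refine ⟨h1, by linarith, ?_⟩
      rw [sum_insert hq]
      have h3 : ∑ y ∈ C, w y * (δ - w y / 2 - lo E w C y) ≤ ∑ z ∈ C, w z * i z := by
        apply sum_le_sum
        intro y hy
        have h4 := hi y (mem_insert_of_mem hy)
        rw [hlo y hy] at h4
        have h5 := hw y
        nlinarith
      have h6 : ∑ y ∈ C, w y * (δ - w y / 2 - lo E w C y)
          = δ * (∑ y ∈ C, w y) - (∑ y ∈ C, w y) ^ 2 / 2 := by
        rw [← tour_sq (w := w) hE C hT, mul_sum, sum_div, ← sum_sub_distrib]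
        apply sum_congr rfl
        intro y _
        ring
      rw [h6] at h3
      nlinarith

/-- The charging estimate. -/
theorem tour_charge (hE : NoC3 E) (hw : ∀ x, 0 < w x) : ∀ X : Finset V, Tour E X → ∀ H : ℝ,
    ∑ x ∈ X, w x * max 0 (H - up E w X x) ^ 2
      ≤ (∑ x ∈ X, w x ^ 3) / 27 + 2 * max 0 H ^ 3 := by
  classical
  refine tour_induction hE (P := fun X => ∀ H : ℝ, ∑ x ∈ X, w x * max 0 (H - up E w X x) ^ 2
      ≤ (∑ x ∈ X, w x ^ 3) / 27 + 2 * max 0 H ^ 3) ?_ ?_
  · intro H
    simp only [sum_empty, zero_div, zero_add]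
    have := le_max_left 0 H
    positivity
  · intro q X hq h hT ih H
    rw [sum_insert hq, sum_insert hq, up_insert_new hE hq h, sub_zero]
    have h2 : ∑ x ∈ X, w x * max 0 (H - up E w (insert q X) x) ^ 2
        = ∑ x ∈ X, w x * max 0 ((H - w q) - up E w X x) ^ 2 := by
      apply sum_congr rfl
      intro x hx
      rw [up_insert_old hq h hx, sub_sub]
    rw [h2]
    have h3 := ih (H - w q)
    have hwq := hw q
    have h4 : w q * max 0 H ^ 2 + 2 * max 0 (H - w q) ^ 3 ≤ w q ^ 3 / 27 + 2 * max 0 H ^ 3 := by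
      rcases le_total H 0 with h5 | h5
      · rw [max_eq_left h5, max_eq_left (by linarith)]
        have : 0 < w q ^ 3 := by positivity
        simp only [ne_eq, OfNat.ofNat_ne_zero, not_false_eq_true, zero_pow, mul_zero, add_zero]
        positivity
      · rw [max_eq_right h5]
        rcases le_total (w q) H with h6 | h6
        · rw [max_eq_right (by linarith)]
          have h7 : 0 ≤ w q * (5 * H ^ 2 - 6 * H * w q + 55 / 27 * w q ^ 2) := by
            apply mul_nonneg hwq.le
            nlinarith [sq_nonneg (5 * H - 3 * w q), sq_nonneg (w q)]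
          nlinarith
        · rw [max_eq_left (by linarith)]
          have h7 : 0 ≤ (w q / 3 - H) ^ 2 * (w q / 3 + 2 * H) := by positivity
          nlinarith
    linarith

end tour

end Pool.Agent.Helper63_CH
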