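import Pool.Agent.Helper63_CH.Tour

/-!
Caccetta–Häggkvist (triangle case): counting triples.
-/

set_option autoImplicit false

open Finset

namespace Pool.Agent.Helper63_CH

section

variable {V : Type} [Fintype V] (w : V → ℝ)

/-- Weighted sum over ordered triples. -/
def Ph (F : V → V → V → ℝ) : ℝ := ∑ x, ∑ y, ∑ z, w x * w y * w z * F x y z

theorem Ph_swap12 (F : V → V → V → ℝ) : Ph w (fun x y z => F y x z) = Ph w F := by
  unfold Ph
  rw [sum_comm]
  apply sum_congr rfl
  intro x _
  apply sum_congr rfl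
  intro y _
  apply sum_congr rfl
  intro z _
  ring

theorem Ph_swap23 (F : V → V → V → ℝ) : Ph w (fun x y z => F x z y) = Ph w F := by
  unfold Ph
  apply sum_congr rfl
  intro x _
  rw [sum_comm]
  apply sum_congr rfl
  intro y _
  apply sum_congr rfl
  intro z _
  ring

theorem Ph_swap13 (F : V → V → V → ℝ) : Ph w (fun x y z => F z y x) = Ph w F := by
  have h1 := Ph_swap12 w F
  have h2 := Ph_swap23 w (fun x y z => F y x z)
  have h3 := Ph_swap12 w (fun x y z => F z x y)
  rw [← h1, ← h2, ← h3]

theorem Ph_add (F G : V → V → V → ℝ) : Ph w (fun x y z => F x y z + G x y z) = Ph w F + Ph w G := by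
  unfold Ph
  simp only [mul_add, sum_add_distrib]

theorem Ph_zero_of_sym (F : V → V → V → ℝ)
    (h : ∀ x y z, F x y z + F x z y + F y x z + F y z x + F z x y + F z y x = 0) : Ph w F = 0 := by
  have h1 := Ph_swap12 w F
  have h2 := Ph_swap23 w F
  have h3 := Ph_swap13 w F
  have h4 : Ph w (fun x y z => F y z x) = Ph w F := by
    have := Ph_swap12 w (fun x y z => F x z y)
    rw [h2] at this
    exact this
  have h5 : Ph w (fun x y z => F z x y) = Ph w F := by
    have := Ph_swap23 w (fun x y z => F y x z)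
    rw [h1] at this
    exact this
  have h6 : Ph w (fun x y z => F x y z + F x z y + F y x z + F y z x + F z x y + F z y x) = 0 := by
    unfold Ph
    simp only [h, mul_zero, sum_const_zero]
  rw [Ph_add, Ph_add, Ph_add, Ph_add, Ph_add, h1, h2, h3, h4, h5] at h6
  have : (Ph w fun x y z => F x y z) = Ph w F := rfl
  rw [this] at h6
  linarith

end

section

variable {V : Type} {E : V → V → Prop}

/-- The possible relations of two vertices. -/
theorem rel_cases (hE : NoC3 E) (x y : V) :
    (x = y) ∨
    (x ≠ y ∧ E x y ∧ ¬ E y x ∧ e E x y = 1 ∧ e E y x = 0 ∧ nn E x y = 0 ∧ nn E y x = 0 ∧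
      dd x y = 0 ∧ dd y x = 0) ∨
    (x ≠ y ∧ ¬ E x y ∧ E y x ∧ e E x y = 0 ∧ e E y x = 1 ∧ nn E x y = 0 ∧ nn E y x = 0 ∧
      dd x y = 0 ∧ dd y x = 0) ∨
    (x ≠ y ∧ ¬ E x y ∧ ¬ E y x ∧ e E x y = 0 ∧ e E y x = 0 ∧ nn E x y = 1 ∧ nn E y x = 1 ∧
      dd x y = 0 ∧ dd y x = 0) := by
  by_cases h : x = y
  · exact Or.inl h
  · right
    have h' : y ≠ x := Ne.symm h
    by_cases h1 : E x y
    · left
      have h2 := hE.c2 x y h1
      exact ⟨h, h1, h2, e_one E h1, e_zero E h2, nn_zero E (fun h3 => h3.2.1 h1),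
        nn_zero E (fun h3 => h3.2.2 h1), dd_zero h, dd_zero h'⟩
    · right
      by_cases h2 : E y x
      · left
        exact ⟨h, h1, h2, e_zero E h1, e_one E h2, nn_zero E (fun h3 => h3.2.2 h2),
          nn_zero E (fun h3 => h3.2.1 h2), dd_zero h, dd_zero h'⟩
      · right
        exact ⟨h, h1, h2, e_zero E h1, e_zero E h2, nn_one E ⟨h, h1, h2⟩,
          nn_one E ⟨h', h2, h1⟩, dd_zero h, dd_zero h'⟩

theorem self_vals (hE : NoC3 E) (x : V) : e E x x = 0 ∧ nn E x x = 0 ∧ dd x x = 1 :=
  ⟨e_zero E (hE.c1 x), nn_zero E (fun h => h.1 rfl), dd_one rfl⟩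

/-- The four indicators sum to one. -/
theorem sum_one (hE : NoC3 E) (x y : V) : e E x y + e E y x + nn E x y + dd x y = 1 := by
  rcases rel_cases hE x y with h | h | h | h
  · subst h
    obtain ⟨h1, h2, h3⟩ := self_vals hE x
    rw [h1, h2, h3]; norm_num
  · obtain ⟨-, -, -, h1, h2, h3, -, h4, -⟩ := h
    rw [h1, h2, h3, h4]; norm_num
  · obtain ⟨-, -, -, h1, h2, h3, -, h4, -⟩ := h
    rw [h1, h2, h3, h4]; norm_num
  · obtain ⟨-, -, -, h1, h2, h3, -, h4, -⟩ := h
    rw [h1, h2, h3, h4]; norm_num

/-- Any three distinct vertices span an edge. -/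
def Ind2 (E : V → V → Prop) : Prop := ∀ x y z, x ≠ y → y ≠ z → x ≠ z →
  ¬ E x y → ¬ E y x → ¬ E y z → ¬ E z y → ¬ E x z → ¬ E z x → False

/-- The function on triples. -/
noncomputable def G (E : V → V → Prop) (x y z : V) : ℝ :=
  3 * (nn E x y * e E x z * e E y z) - (e E y x * e E z x - 2 * (e E x y * e E z x)
    - nn E x y * nn E x z + 2 * (e E x y * nn E x z) + dd x z * (nn E x y - e E x y))

theorem G_sym (hE : NoC3 E) (hI : Ind2 E) (x y z : V) :
    G E x y z + G E x z y + G E y x z + G E y z x + G E z x y + G E z y x = 0 := by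
  have key : ∀ x y z : V, x = y →
      G E x y z + G E x z y + G E y x z + G E y z x + G E z x y + G E z y x = 0 := by
    intro x y z hxy
    subst hxy
    obtain ⟨s1, s2, s3⟩ := self_vals hE x
    obtain ⟨t1, t2, t3⟩ := self_vals hE z
    rcases rel_cases hE x z with h | h | h | h
    · subst h
      simp only [G, s1, s2, s3]
      norm_num
    all_goals
      obtain ⟨-, -, -, a1, a2, a3, a4, a5, a6⟩ := h
      simp only [G, s1, s2, s3, t1, t2, t3, a1, a2, a3, a4, a5, a6]
      norm_num
  rcases rel_cases hE x y with h | h | h | h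
  · exact key x y z h
  all_goals
    rcases rel_cases hE x z with h' | h' | h' | h'
    · have := key x z y h'
      linarith
    all_goals
      rcases rel_cases hE y z with h'' | h'' | h'' | h''
      · have := key y z x h''
        linarith
      all_goals
        obtain ⟨n1, p1, q1, a1, a2, a3, a4, a5, a6⟩ := h
        obtain ⟨n2, p2, q2, b1, b2, b3, b4, b5, b6⟩ := h'
        obtain ⟨n3, p3, q3, c1, c2, c3, c4, c5, c6⟩ := h''
        first
          | exact absurd q2 (hE.c3 x y z p1 p3)
          | exact absurd q1 (hE.c3 x z y p2 q3)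
          | exact (hI x y z n1 n3 n2 p1 q1 p3 q3 p2 q2).elim
          | (simp only [G, a1, a2, a3, a4, a5, a6, b1, b2, b3, b4, b5, b6, c1, c2, c3, c4, c5, c6]
             norm_num)

end

section

variable {V : Type} [Fintype V] (E : V → V → Prop) (w : V → ℝ)

/-- Weighted outdegree, indegree, nondegree. -/
noncomputable def ao (x : V) : ℝ := ∑ y, e E x y * w y

noncomputable def bi (x : V) : ℝ := ∑ y, e E y x * w y

noncomputable def cn (x : V) : ℝ := ∑ y, nn E x y * w y

/-- Common outneighbours. -/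
noncomputable def ico (x y : V) : ℝ := ∑ z, w z * (e E x z * e E y z)

variable {E w}

theorem sum_dd (x : V) (f : V → ℝ) : ∑ z, dd x z * f z = f x := by
  classical
  rw [Finset.sum_eq_single x]
  · rw [dd_one rfl, one_mul]
  · intro b _ hb
    rw [dd_zero hb.symm, zero_mul]
  · intro h
    exact absurd (mem_univ x) h

theorem abc_sum (hE : NoC3 E) (x : V) : ao E w x + bi E w x + cn E w x + w x = ∑ y, w y := by
  rw [ao, bi, cn, ← sum_dd x w, ← sum_add_distrib, ← sum_add_distrib, ← sum_add_distrib]
  apply sum_congr rfl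
  intro y _
  have := sum_one hE x y
  rw [← add_mul, ← add_mul, ← add_mul, this, one_mul]

/-- The triple identity. -/
theorem triple (hE : NoC3 E) (hI : Ind2 E) :
    3 * ∑ x, w x * ∑ y, w y * (nn E x y * ico E w x y)
      = ∑ x, w x * (bi E w x ^ 2 - 2 * (ao E w x * bi E w x) - cn E w x ^ 2
          + 2 * (ao E w x * cn E w x) + w x * (cn E w x - ao E w x)) := by
  have h := Ph_zero_of_sym w (G E) (G_sym hE hI)
  unfold Ph at h
  rw [← sub_eq_zero, ← h, mul_sum, ← sum_sub_distrib]
  apply sum_congr rfl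
  intro x _
  have h1 : ∑ y, ∑ z, w x * w y * w z * (3 * (nn E x y * e E x z * e E y z))
      = 3 * (w x * ∑ y, w y * (nn E x y * ico E w x y)) := by
    rw [mul_sum, mul_sum]
    apply sum_congr rfl
    intro y _
    rw [ico, mul_sum, mul_sum, mul_sum, mul_sum]
    apply sum_congr rfl
    intro z _
    ring
  have h2 : ∑ y, ∑ z, w x * w y * w z * (e E y x * e E z x) = w x * bi E w x ^ 2 := by
    rw [sq, bi, sum_mul_sum, mul_sum]
    apply sum_congr rfl
    intro y _
    rw [mul_sum]
    apply sum_congr rfl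
    intro z _
    ring
  have h3 : ∑ y, ∑ z, w x * w y * w z * (2 * (e E x y * e E z x))
      = w x * (2 * (ao E w x * bi E w x)) := by
    rw [ao, bi, sum_mul_sum, mul_sum, mul_sum]
    apply sum_congr rfl
    intro y _
    rw [mul_sum, mul_sum]
    apply sum_congr rfl
    intro z _
    ring
  have h4 : ∑ y, ∑ z, w x * w y * w z * (nn E x y * nn E x z) = w x * cn E w x ^ 2 := by
    rw [sq, cn, sum_mul_sum, mul_sum]
    apply sum_congr rfl
    intro y _
    rw [mul_sum]
    apply sum_congr rfl
    intro z _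
    ring
  have h5 : ∑ y, ∑ z, w x * w y * w z * (2 * (e E x y * nn E x z))
      = w x * (2 * (ao E w x * cn E w x)) := by
    rw [ao, cn, sum_mul_sum, mul_sum, mul_sum]
    apply sum_congr rfl
    intro y _
    rw [mul_sum, mul_sum]
    apply sum_congr rfl
    intro z _
    ring
  have h6 : ∑ y, ∑ z, w x * w y * w z * (dd x z * (nn E x y - e E x y))
      = w x * (w x * (cn E w x - ao E w x)) := by
    rw [cn, ao, ← sum_sub_distrib, mul_sum, mul_sum]
    apply sum_congr rfl
    intro y _
    have := sum_dd x (fun z => w x * w y * w z * (nn E x y - e E x y))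
    calc ∑ z, w x * w y * w z * (dd x z * (nn E x y - e E x y))
        = ∑ z, dd x z * (w x * w y * w z * (nn E x y - e E x y)) := by
          apply sum_congr rfl
          intro z _
          ring
      _ = w x * w y * w x * (nn E x y - e E x y) := this
      _ = w x * (w x * (nn E x y * w y - e E x y * w y)) := by ring
  have h7 : ∑ y, ∑ z, w x * w y * w z * G E x y z
      = ∑ y, ∑ z, w x * w y * w z * (3 * (nn E x y * e E x z * e E y z))
        - (∑ y, ∑ z, w x * w y * w z * (e E y x * e E z x)
          - ∑ y, ∑ z, w x * w y * w z * (2 * (e E x y * e E z x))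
          - ∑ y, ∑ z, w x * w y * w z * (nn E x y * nn E x z)
          + ∑ y, ∑ z, w x * w y * w z * (2 * (e E x y * nn E x z))
          + ∑ y, ∑ z, w x * w y * w z * (dd x z * (nn E x y - e E x y))) := by
    simp only [← sum_sub_distrib, ← sum_add_distrib]
    apply sum_congr rfl
    intro y _
    apply sum_congr rfl
    intro z _
    rw [G]
    ring
  rw [h7, h1, h2, h3, h4, h5, h6]
  ring

end

end Pool.Agent.Helper63_CH
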